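import Pool.Agent.Work.MP_80ff4e_al_helper3.P1

/-!
# Block P2: two nested invariant equivalence relations and a geometric cycle give a power
-/

set_option autoImplicit false

open Polynomial unitInterval Filter Topology

namespace PCF.P1

open PCF

variable {f : ℂ[X]} {P : Set ℂ} {t : ℂ} {n : ℕ}

/-- A polynomial with only one root. -/
lemma single_root (p : ℂ[X]) (r : ℂ) (h : ∀ v, p.eval v = 0 → v = r) :
    p = C p.leadingCoeff * (X - C r) ^ p.natDegree := by
  by_cases hp : p = 0
  · simp [hp]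
  have hs : p.Splits := IsAlgClosed.splits p
  have hcard : p.roots.card = p.natDegree := hs.natDegree_eq_card_roots.symm
  have hr : p.roots = Multiset.replicate p.natDegree r := by
    rw [Multiset.eq_replicate]
    refine ⟨hcard, fun b hb => ?_⟩
    rw [mem_roots hp, IsRoot.def] at hb
    exact h b hb
  conv_lhs => rw [hs.eq_prod_roots]
  rw [hr, Multiset.map_replicate, Multiset.prod_replicate]

/-- Lower bound for a polynomial away from its roots. -/
lemma norm_eval_ge (p : ℂ[X]) (Y : ℂ) (δ : ℝ) (hδ : 0 ≤ δ)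
    (h : ∀ v, p.eval v = 0 → δ ≤ ‖Y - v‖) : ‖p.leadingCoeff‖ * δ ^ p.natDegree ≤ ‖p.eval Y‖ := by
  by_cases hp : p = 0
  · simp [hp]
  have hs : p.Splits := IsAlgClosed.splits p
  have hcard : p.roots.card = p.natDegree := hs.natDegree_eq_card_roots.symm
  have hev : p.eval Y = p.leadingCoeff * (p.roots.map fun a => Y - a).prod := by
    conv_lhs => rw [hs.eq_prod_roots]
    rw [eval_mul, eval_C, eval_multiset_prod, Multiset.map_map]
    simp
  rw [hev, norm_mul]
  refine mul_le_mul_of_nonneg_left ?_ (norm_nonneg _)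
  rw [← hcard]
  have hroots : ∀ a ∈ p.roots, δ ≤ ‖Y - a‖ := by
    intro a ha
    rw [mem_roots hp, IsRoot.def] at ha
    exact h a ha
  revert hroots
  induction p.roots using Multiset.induction_on with
  | empty => simp
  | cons a m ih =>
    intro hm
    rw [Multiset.card_cons, Multiset.map_cons, Multiset.prod_cons, norm_mul, pow_succ, mul_comm]
    have h1 := hm a (by simp)
    have h2 := ih (fun b hb => hm b (by simp [hb]))
    gcongr

theorem _root_.PCF.stmt_P2 (hPA2 : Stmt_PA2) : Stmt_P2 := by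
  classical
  intro f P hA t n ht s₁ s₂ _ hf₂ hs₁ hs₂ hle hne Cy u hCy hCyt hgeo hblk
  obtain ⟨E₁, A₁, hd₁, hF₁, hR₁, hB₁⟩ := P1core (n := n) hPA2 hA ht hs₁
  obtain ⟨E₂, A₂, hd₂, hF₂, hR₂, hB₂⟩ := P1core (n := n) hPA2 hA ht hs₂
  have hrel : ∀ x y, Rel f P t n s₁ x y → Rel f P t n s₂ x y := by
    rintro x y ⟨c, γ, hγ, a, b, hab, h1, h2⟩
    exact ⟨c, γ, hγ, a, b, hle hab, h1, h2⟩
  have hfin := finite_preimage (n := n) hA
  -- E₂ = B ∘ E₁
  have hinf : {y : ℂ | (fibre E₁ y).card = E₁.natDegree ∧ ∀ u v, E₁.eval u = y → E₁.eval v = y →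
      E₂.eval u = E₂.eval v}.Infinite := by
    intro hfinS
    have hU : ({z | it f n z ∈ P}ᶜ).Infinite := hfin.infinite_compl
    apply hU
    refine (Set.Finite.preimage' (f := fun x => E₁.eval x) hfinS ?_).subset ?_
    · intro y _
      have h1 : (fun x => E₁.eval x) ⁻¹' {y} = (fibre E₁ y : Set ℂ) := by
        ext z
        simp only [Set.mem_preimage, Set.mem_singleton_iff, Finset.mem_coe]
        rw [LD.mem_fibre (by omega)]
      rw [h1]
      exact Finset.finite_toSet _
    · intro x hx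
      have hxP : it f n x ∉ P := hx
      refine ⟨?_, fun u v hu hv => ?_⟩
      · rw [(hB₁ x hxP).1, (hB₁ x hxP).2]
      · rw [hR₁ x hxP] at hu hv
        rw [(hR₂ x hxP u).2 (hrel _ _ hu), (hR₂ x hxP v).2 (hrel _ _ hv)]
  obtain ⟨B₀, hB₀⟩ := hPA2 E₁ E₂ hd₁ hinf
  -- its degree is at least two
  have hk : 2 ≤ B₀.natDegree := by
    have hdeg : E₂.natDegree = B₀.natDegree * E₁.natDegree := by rw [hB₀, natDegree_comp]
    by_contra hcon
    push Not at hcon
    have h1 : B₀.natDegree = 1 := by
      rcases Nat.eq_zero_or_pos B₀.natDegree with h0 | h0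
      · rw [h0] at hdeg; omega
      · omega
    rw [h1, one_mul] at hdeg
    apply hne
    apply le_antisymm hle
    intro x y hxy
    by_cases hxy' : x = y
    · subst hxy'; exact s₁.refl x
    obtain ⟨hx, hy⟩ := hf₂ x y hxy hxy'
    have hxP : it f n x ∉ P := by rw [hx]; exact ht
    have hsub : B f P t n s₁ x ⊆ B f P t n s₂ x := by
      intro z hz
      exact (mem_B hA).2 (hrel _ _ ((mem_B hA).1 hz))
    have heq : B f P t n s₁ x = B f P t n s₂ x := by
      apply Finset.eq_of_subset_of_card_le hsub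
      rw [(hB₁ x hxP).2, (hB₂ x hxP).2, hdeg]
    have hy2 : y ∈ B f P t n s₂ x := (mem_B hA).2 ((rel_base ht hs₂ hx hy).2 hxy)
    rw [← heq] at hy2
    exact (rel_base ht hs₁ hx hy).1 ((mem_B hA).1 hy2)
  -- the only root of B₀ - E₂(u)
  have hroot : ∀ Y, (B₀ - C (E₂.eval u)).eval Y = 0 → Y = E₁.eval u := by
    intro Y hY
    by_contra hYne
    obtain ⟨a, haC⟩ := hCy
    set η := ‖Y - E₁.eval u‖ / 2 with hη
    have hηpos : 0 < η := by
      have := norm_pos_iff.2 (sub_ne_zero.2 hYne)
      rw [hη]; linarith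
    set κ := ‖B₀.leadingCoeff‖ * η ^ B₀.natDegree with hκ
    have hκpos : 0 < κ := by
      have : B₀.leadingCoeff ≠ 0 := by
        rw [Ne, leadingCoeff_eq_zero]
        rintro h0
        rw [h0] at hk
        simp at hk
      have := norm_pos_iff.2 this
      positivity
    obtain ⟨ε₁, hε₁, h1⟩ := Metric.continuous_iff.1 E₁.continuous u η hηpos
    obtain ⟨ε₂, hε₂, h2⟩ := Metric.continuous_iff.1 E₂.continuous u κ hκpos
    obtain ⟨t', ρ, hρ, -, hρC⟩ := hgeo (min ε₁ ε₂) (lt_min hε₁ hε₂)
    obtain ⟨a', ha', haε⟩ := hρC a haC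
    have hFa' : it f n a' ∉ P := by
      rw [(tr_ends ha').2]
      have := hρ 1
      rwa [ρ.target] at this
    have hlow : κ ≤ ‖(B₀ - C (E₂.eval a')).eval Y‖ := by
      have := norm_eval_ge (B₀ - C (E₂.eval a')) Y η hηpos.le (by
        intro v hv
        rw [eval_sub, eval_C, sub_eq_zero] at hv
        -- v = E₁ x'
        obtain ⟨x', hx'⟩ : ∃ x', E₁.eval x' = v := by
          have hpos : 0 < E₁.degree := natDegree_pos_iff_degree_pos.1 (by omega)
          have h3 : (E₁ - C v).degree ≠ 0 := by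
            rw [degree_sub_C hpos]
            exact hpos.ne'
          obtain ⟨x', hx'⟩ := IsAlgClosed.exists_root _ h3
          refine ⟨x', ?_⟩
          rw [IsRoot.def, eval_sub, eval_C, sub_eq_zero] at hx'
          exact hx'
        have h4 : E₂.eval x' = E₂.eval a' := by
          rw [← hv, hB₀, eval_comp, hx']
        have h5 : Rel f P t n s₂ a' x' := (hR₂ a' hFa' x').1 h4
        -- back to t
        obtain ⟨x, hx⟩ := tr_exists hA n ρ.symm (av_symm hρ) x' (by
          rw [← h5.eq]; exact (tr_ends ha').2)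
        have h6 : Rel f P t n s₂ a x := h5.tr ρ.symm (av_symm hρ) (tr_symm ha') hx
        have hat : it f n a = t := hCyt a haC
        have hxt : it f n x = t := by rw [← h6.eq]; exact hat
        have h7 : s₂ a x := (rel_base ht hs₂ hat hxt).1 h6
        obtain ⟨c, hcC, hsc⟩ := hblk a haC x h7
        obtain ⟨c', hc', hcε⟩ := hρC c hcC
        have hct : it f n c = t := hCyt c hcC
        have h8 : Rel f P t n s₁ x c := (rel_base ht hs₁ hxt hct).2 hsc
        have h9 : Rel f P t n s₁ x' c' := h8.tr ρ hρ (tr_symm_iff.1 hx) hc'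
        have h10 : E₁.eval c' = E₁.eval x' := (hR₁ x' h9.not_mem c').2 h9
        have h11 : ‖E₁.eval c' - E₁.eval u‖ < η := by
          have := h1 c' (by
            rw [dist_eq_norm]
            exact hcε.trans_le (min_le_left _ _))
          rwa [dist_eq_norm] at this
        have h12 : ‖Y - E₁.eval u‖ ≤ ‖Y - v‖ + ‖v - E₁.eval u‖ := norm_sub_le_norm_sub_add_norm_sub _ _ _
        have h13 : ‖v - E₁.eval u‖ < η := by rw [← hx', ← h10]; exact h11
        have h14 : ‖Y - E₁.eval u‖ = 2 * η := by rw [hη]; ring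
        linarith)
      have hlc : (B₀ - C (E₂.eval a')).leadingCoeff = B₀.leadingCoeff := by
        rw [leadingCoeff, natDegree_sub_C, coeff_sub, coeff_C_of_ne_zero (by omega), sub_zero]
        rfl
      rw [hlc, natDegree_sub_C] at this
      exact this
    have hup : ‖(B₀ - C (E₂.eval a')).eval Y‖ < κ := by
      rw [eval_sub, eval_C] at hY ⊢
      have h3 : B₀.eval Y - E₂.eval a' = -(E₂.eval a' - E₂.eval u) := by
        linear_combination hY
      rw [h3, norm_neg]
      have := h2 a' (by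
        rw [dist_eq_norm]
        exact haε.trans_le (min_le_right _ _))
      rwa [dist_eq_norm] at this
    linarith
  have hfac := single_root _ _ hroot
  rw [natDegree_sub_C] at hfac
  refine ⟨B₀.natDegree, A₂.comp (C (B₀ - C (E₂.eval u)).leadingCoeff * X + C (E₂.eval u)),
    E₁ - C (E₁.eval u), hk, fun z => ?_, by simp⟩
  have h1 : B₀ = C (B₀ - C (E₂.eval u)).leadingCoeff * (X - C (E₁.eval u)) ^ B₀.natDegree +
      C (E₂.eval u) := by
    rw [← hfac]; ring
  have h2 : it f n z = A₂.eval (B₀.eval (E₁.eval z)) := by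
    rw [← itp_eval, hF₂, eval_comp, hB₀, eval_comp]
  rw [h2]
  have h3 : B₀.eval (E₁.eval z) = (B₀ - C (E₂.eval u)).leadingCoeff *
      (E₁.eval z - E₁.eval u) ^ B₀.natDegree + E₂.eval u := by
    conv_lhs => rw [h1]
    simp only [eval_add, eval_mul, eval_C, eval_pow, eval_sub, eval_X]
  rw [h3]
  simp only [eval_comp, eval_add, eval_mul, eval_C, eval_X, eval_sub]

end PCF.P1
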