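import Mathlib

/-!
# Growth: entire functions of polynomial growth, removable singularities, fibres of polynomials
-/

set_option autoImplicit false

open Polynomial Filter Topology

namespace PCF.P1

/-- Liouville's theorem for functions of polynomial growth. -/
lemma liouville_poly (k : ℕ) : ∀ (g : ℂ → ℂ) (C : ℝ), Differentiable ℂ g →
    (∀ x, ‖g x‖ ≤ C * (1 + ‖x‖) ^ k) → ∃ p : ℂ[X], p.natDegree ≤ k ∧ ∀ x, g x = p.eval x := by
  induction k with
  | zero =>
    intro g C hg hb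
    refine ⟨Polynomial.C (g 0), by simp, fun x => ?_⟩
    rw [eval_C]
    apply hg.apply_eq_apply_of_bounded
    rw [isBounded_iff_forall_norm_le]
    refine ⟨C, ?_⟩
    rintro _ ⟨y, rfl⟩
    simpa using hb y
  | succ k ih =>
    intro g C hg hb
    have hd : Differentiable ℂ (dslope g 0) := by
      rw [← differentiableOn_univ]
      rw [Complex.differentiableOn_dslope Filter.univ_mem]
      exact hg.differentiableOn
    have hC : 0 ≤ C := by
      have := hb 0
      have h0 := norm_nonneg (g 0)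
      simp at this
      linarith
    obtain ⟨M, hM⟩ : ∃ M : ℝ, ∀ x ∈ Metric.closedBall (0 : ℂ) 1, ‖dslope g 0 x‖ ≤ M :=
      (isCompact_closedBall (0 : ℂ) 1).exists_bound_of_continuousOn hd.continuous.continuousOn
    have hM0 : 0 ≤ M := (norm_nonneg _).trans (hM 0 (by simp))
    obtain ⟨p, hp, hpe⟩ := ih (dslope g 0) (M + 2 * (C + ‖g 0‖)) hd (by
      intro x
      have h1 : (1 : ℝ) ≤ (1 + ‖x‖) ^ k := one_le_pow₀ (by linarith [norm_nonneg x])
      have hg0 := norm_nonneg (g 0)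
      by_cases hx : ‖x‖ ≤ 1
      · have := hM x (by simpa using hx)
        nlinarith
      · push Not at hx
        have hx0 : x ≠ 0 := by
          rintro rfl
          simp at hx
          linarith
        rw [dslope_of_ne _ hx0, slope_def_field, norm_div, sub_zero]
        rw [div_le_iff₀ (by linarith)]
        have h2 : ‖g x - g 0‖ ≤ (C + ‖g 0‖) * (1 + ‖x‖) ^ (k + 1) := by
          have h3 : (1 : ℝ) ≤ (1 + ‖x‖) ^ (k + 1) := one_le_pow₀ (by linarith [norm_nonneg x])
          calc ‖g x - g 0‖ ≤ ‖g x‖ + ‖g 0‖ := norm_sub_le _ _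
            _ ≤ C * (1 + ‖x‖) ^ (k + 1) + ‖g 0‖ := by linarith [hb x]
            _ ≤ _ := by nlinarith
        have h4 : (C + ‖g 0‖) * (1 + ‖x‖) ^ (k + 1) ≤ 2 * (C + ‖g 0‖) * (1 + ‖x‖) ^ k * ‖x‖ := by
          rw [pow_succ]
          have h5 : 1 + ‖x‖ ≤ 2 * ‖x‖ := by linarith
          have h6 : 0 ≤ (C + ‖g 0‖) * (1 + ‖x‖) ^ k := by positivity
          nlinarith
        have h7 : 0 ≤ M * (1 + ‖x‖) ^ k * ‖x‖ := by positivity
        nlinarith)
    refine ⟨Polynomial.C (g 0) + X * p, ?_, fun x => ?_⟩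
    · refine (natDegree_add_le _ _).trans ?_
      simp only [natDegree_C]
      refine max_le (Nat.zero_le _) ?_
      refine (natDegree_mul_le).trans ?_
      rw [natDegree_X]
      omega
    · rw [eval_add, eval_C, eval_mul, eval_X, ← hpe]
      have := sub_smul_dslope g 0 x
      simp only [sub_zero, smul_eq_mul] at this
      rw [this]
      ring

/-- A function that is holomorphic and of polynomial growth outside of a finite set is a
polynomial there. -/
lemma poly_of_growth (k : ℕ) (C : ℝ) (Z : Finset ℂ) : ∀ (h : ℂ → ℂ),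
    (∀ x ∉ Z, DifferentiableAt ℂ h x) → (∀ x ∉ Z, ‖h x‖ ≤ C * (1 + ‖x‖) ^ k) →
    ∃ p : ℂ[X], p.natDegree ≤ k ∧ ∀ x ∉ Z, h x = p.eval x := by
  classical
  induction Z using Finset.induction_on with
  | empty =>
    intro h hd hb
    obtain ⟨p, hp, hpe⟩ := liouville_poly k h C (fun x => hd x (by simp)) (fun x => hb x (by simp))
    exact ⟨p, hp, fun x _ => hpe x⟩
  | insert c Z hc ih =>
    intro h hd hb
    set s : Set ℂ := (Z : Set ℂ)ᶜ ∩ Metric.ball c 1 with hs
    have hsn : s ∈ 𝓝 c := by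
      refine inter_mem ?_ (Metric.ball_mem_nhds c one_pos)
      exact Z.finite_toSet.isClosed.isOpen_compl.mem_nhds (by simpa using hc)
    have hdiff : DifferentiableOn ℂ (Function.update h c (limUnder (𝓝[≠] c) h)) s := by
      apply Complex.differentiableOn_update_limUnder_of_bddAbove hsn
      · intro x hx
        refine (hd x ?_).differentiableWithinAt
        simp only [Finset.mem_insert, not_or]
        refine ⟨by simpa using hx.2, ?_⟩
        have := hx.1.1
        simpa using this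
      · refine ⟨C * (2 + ‖c‖) ^ k, ?_⟩
        rintro _ ⟨x, hx, rfl⟩
        have hxc : x ≠ c := by simpa using hx.2
        have hxZ : x ∉ Z := by simpa using hx.1.1
        have hxb : ‖x - c‖ < 1 := by simpa [dist_eq_norm] using hx.1.2
        have h1 := hb x (by simp [hxc, hxZ])
        have h2 : 1 + ‖x‖ ≤ 2 + ‖c‖ := by
          have : ‖x‖ ≤ ‖x - c‖ + ‖c‖ := by
            calc ‖x‖ = ‖(x - c) + c‖ := by ring_nf
              _ ≤ _ := norm_add_le _ _
          linarith
        have hC : 0 ≤ C := by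
          by_contra hC
          push Not at hC
          have h3 : 0 < (1 + ‖x‖) ^ k := by positivity
          have := norm_nonneg (h x)
          nlinarith
        simp only [Function.comp]
        refine h1.trans ?_
        gcongr
    set h' := Function.update h c (limUnder (𝓝[≠] c) h) with hh'
    have hne : ∀ x, x ≠ c → h' =ᶠ[𝓝 x] h := by
      intro x hx
      filter_upwards [isOpen_ne.mem_nhds hx] with y hy
      simp [hh', Function.update_of_ne hy]
    have hd' : ∀ x ∉ Z, DifferentiableAt ℂ h' x := by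
      intro x hx
      by_cases hxc : x = c
      · subst hxc
        exact (hdiff.differentiableAt hsn)
      · exact (hd x (by simp [hxc, hx])).congr_of_eventuallyEq (hne x hxc)
    have hb' : ∀ x ∉ Z, ‖h' x‖ ≤ C * (1 + ‖x‖) ^ k := by
      intro x hx
      by_cases hxc : x = c
      · subst hxc
        have ht : Tendsto (fun y => ‖h' y‖) (𝓝[≠] x) (𝓝 ‖h' x‖) :=
          ((hd' x hx).continuousAt.norm).tendsto.mono_left nhdsWithin_le_nhds
        have ht2 : Tendsto (fun y : ℂ => C * (1 + ‖y‖) ^ k) (𝓝[≠] x) (𝓝 (C * (1 + ‖x‖) ^ k)) := by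
          have : Continuous (fun y : ℂ => C * (1 + ‖y‖) ^ k) := by fun_prop
          exact this.continuousAt.tendsto.mono_left nhdsWithin_le_nhds
        refine le_of_tendsto_of_tendsto ht ht2 ?_
        have h1 : ∀ᶠ y in 𝓝[≠] x, y ∉ Z :=
          (Z.finite_toSet.isClosed.isOpen_compl.mem_nhds (by simpa using hx)) |> (nhdsWithin_le_nhds ·)
        filter_upwards [h1, self_mem_nhdsWithin] with y hy hyx
        have hyx' : y ≠ x := hyx
        have : h' y = h y := by simp [hh', Function.update_of_ne hyx']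
        rw [this]
        exact hb y (by simp [hyx', hy])
      · have : h' x = h x := (hne x hxc).eq_of_nhds
        rw [this]
        exact hb x (by simp [hxc, hx])
    obtain ⟨p, hp, hpe⟩ := ih h' hd' hb'
    refine ⟨p, hp, fun x hx => ?_⟩
    simp only [Finset.mem_insert, not_or] at hx
    rw [← hpe x hx.2]
    exact ((hne x hx.1).eq_of_nhds).symm

lemma norm_eval_le (p : ℂ[X]) (m : ℕ) (hp : p.natDegree ≤ m) :
    ∃ A : ℝ, 0 ≤ A ∧ ∀ x : ℂ, ‖p.eval x‖ ≤ A * (1 + ‖x‖) ^ m := by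
  refine ⟨∑ i ∈ Finset.range (m + 1), ‖p.coeff i‖, Finset.sum_nonneg fun _ _ => norm_nonneg _,
    fun x => ?_⟩
  rw [eval_eq_sum_range' (n := m + 1) (by omega), Finset.sum_mul]
  refine (norm_sum_le _ _).trans (Finset.sum_le_sum fun i hi => ?_)
  rw [norm_mul, norm_pow]
  refine mul_le_mul_of_nonneg_left ?_ (norm_nonneg _)
  have h1 : ‖x‖ ≤ 1 + ‖x‖ := by linarith [norm_nonneg x]
  calc ‖x‖ ^ i ≤ (1 + ‖x‖) ^ i := by gcongr
    _ ≤ (1 + ‖x‖) ^ m := pow_le_pow_right₀ (by linarith [norm_nonneg x])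
      (by rw [Finset.mem_range] at hi; omega)

/-- Points with the same value under a polynomial are of comparable size. -/
lemma growth_fibre (F : ℂ[X]) (hF : 1 ≤ F.natDegree) :
    ∃ M : ℝ, 1 ≤ M ∧ ∀ x y : ℂ, F.eval y = F.eval x → ‖y‖ ≤ M * (1 + ‖x‖) := by
  obtain ⟨A, hA0, hA⟩ := norm_eval_le F F.natDegree le_rfl
  obtain ⟨A', hA'0, hA'⟩ := norm_eval_le F.eraseLead (F.natDegree - 1) (eraseLead_natDegree_le F)
  set D := F.natDegree with hD
  set a := F.leadingCoeff with ha
  have ha0 : a ≠ 0 := by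
    rw [ha, Ne, leadingCoeff_eq_zero]
    intro h
    rw [hD, h] at hF
    simp at hF
  have hapos : 0 < ‖a‖ := norm_pos_iff.2 ha0
  set M : ℝ := (2 ^ D * (A + A') + 1) / ‖a‖ + 1 with hM
  have hMa : 2 ^ D * (A + A') < M * ‖a‖ := by
    rw [hM, add_mul, div_mul_cancel₀ _ hapos.ne']
    linarith
  have hM1 : 1 ≤ M := by
    rw [hM]
    have : 0 ≤ (2 ^ D * (A + A') + 1) / ‖a‖ := by positivity
    linarith
  refine ⟨M, hM1, fun x y hxy => ?_⟩
  by_contra hcon
  push Not at hcon
  have hx0 := norm_nonneg x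
  have hy1 : 1 ≤ ‖y‖ := by nlinarith
  set T := 1 + ‖y‖ with hT
  have hT2 : T ≤ 2 * ‖y‖ := by linarith
  have hTM : M * (1 + ‖x‖) < T := by linarith
  have hTpos : 0 < T := by linarith
  have hdec : F.eval y = a * y ^ D + F.eraseLead.eval y := by
    conv_lhs => rw [← eraseLead_add_monomial_natDegree_leadingCoeff F]
    rw [eval_add, eval_monomial]
    ring
  have h1 : ‖a‖ * ‖y‖ ^ D ≤ A * (1 + ‖x‖) ^ D + A' * T ^ (D - 1) := by
    have : a * y ^ D = F.eval x - F.eraseLead.eval y := by rw [← hxy, hdec]; ring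
    calc ‖a‖ * ‖y‖ ^ D = ‖a * y ^ D‖ := by rw [norm_mul, norm_pow]
      _ = ‖F.eval x - F.eraseLead.eval y‖ := by rw [this]
      _ ≤ ‖F.eval x‖ + ‖F.eraseLead.eval y‖ := norm_sub_le _ _
      _ ≤ _ := add_le_add (hA x) (hA' y)
  have h2 : T ^ D ≤ 2 ^ D * ‖y‖ ^ D := by
    rw [← mul_pow]
    gcongr
  have h3 : M * (1 + ‖x‖) ^ D ≤ T ^ D := by
    calc M * (1 + ‖x‖) ^ D ≤ M ^ D * (1 + ‖x‖) ^ D := by
          gcongr
          exact le_self_pow₀ hM1 (by omega)
      _ = (M * (1 + ‖x‖)) ^ D := by rw [mul_pow]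
      _ ≤ T ^ D := by gcongr
  have h4 : M * T ^ (D - 1) ≤ T ^ D := by
    obtain ⟨e, he⟩ : ∃ e, D = e + 1 := ⟨D - 1, by omega⟩
    rw [he, Nat.add_sub_cancel, pow_succ, mul_comm]
    gcongr
    nlinarith
  have hTD : 0 < T ^ D := by positivity
  have h5 : M * ‖a‖ * T ^ D ≤ 2 ^ D * (A + A') * T ^ D := by
    have e1 : ‖a‖ * T ^ D ≤ 2 ^ D * (A * (1 + ‖x‖) ^ D + A' * T ^ (D - 1)) := by
      calc ‖a‖ * T ^ D ≤ ‖a‖ * (2 ^ D * ‖y‖ ^ D) := by gcongr
        _ = 2 ^ D * (‖a‖ * ‖y‖ ^ D) := by ring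
        _ ≤ _ := by gcongr
    calc M * ‖a‖ * T ^ D = M * (‖a‖ * T ^ D) := by ring
      _ ≤ M * (2 ^ D * (A * (1 + ‖x‖) ^ D + A' * T ^ (D - 1))) := by gcongr
      _ = 2 ^ D * (A * (M * (1 + ‖x‖) ^ D) + A' * (M * T ^ (D - 1))) := by ring
      _ ≤ 2 ^ D * (A * T ^ D + A' * T ^ D) := by gcongr
      _ = _ := by ring
  have h6 : 2 ^ D * (A + A') * T ^ D < M * ‖a‖ * T ^ D := by gcongr
  linarith

end PCF.P1
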