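import Pool.Agent.Work.MP_80ff4e_al_helper39.TR
import Pool.Agent.Work.MP_80ff4e_al_helper82.L
import Pool.Agent.Work.MP_80ff4e_al_helper3.Growth

/-!
# Block P1, part 1: the transported relation and its local structure
-/

set_option autoImplicit false

open Polynomial unitInterval Filter Topology

namespace PCF.P1

open PCF

variable {f : ℂ[X]} {P : Set ℂ} {t : ℂ} {n : ℕ} {s : Setoid ℂ}

/-- The relation `s` transported along paths from `t` avoiding `P`. -/
def Rel (f : ℂ[X]) (P : Set ℂ) (t : ℂ) (n : ℕ) (s : Setoid ℂ) (x y : ℂ) : Prop :=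
  ∃ (c : ℂ) (γ : Path t c), Av P γ ∧ ∃ a b, s a b ∧ Tr f n γ a x ∧ Tr f n γ b y

/-- Invariance of `s` under the loops at `t`. -/
def Inv (f : ℂ[X]) (P : Set ℂ) (t : ℂ) (n : ℕ) (s : Setoid ℂ) : Prop :=
  ∀ γ : Path t t, Av P γ → ∀ x x' y y', s x y → Tr f n γ x x' → Tr f n γ y y' → s x' y'

lemma av_trans {a b c : ℂ} {γ : Path a b} {δ : Path b c} (h1 : Av P γ) (h2 : Av P δ) :
    Av P (γ.trans δ) := by
  intro s
  rw [Path.trans_apply]
  split_ifs
  · exact h1 _
  · exact h2 _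

lemma av_symm {a b : ℂ} {γ : Path a b} (h1 : Av P γ) : Av P γ.symm := by
  intro s
  rw [Path.symm_apply]
  exact h1 _

lemma Rel.eq {x y : ℂ} (h : Rel f P t n s x y) : it f n x = it f n y := by
  obtain ⟨c, γ, _, a, b, _, h1, h2⟩ := h
  rw [(tr_ends h1).2, (tr_ends h2).2]

lemma Rel.not_mem {x y : ℂ} (h : Rel f P t n s x y) : it f n x ∉ P := by
  obtain ⟨c, γ, hγ, a, b, _, h1, h2⟩ := h
  rw [(tr_ends h1).2]
  have := hγ 1
  rwa [γ.target] at this

lemma Rel.key (hs : Inv f P t n s) {x y : ℂ} (h : Rel f P t n s x y) {c : ℂ} (γ : Path t c)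
    (hγ : Av P γ) {a b : ℂ} (ha : Tr f n γ a x) (hb : Tr f n γ b y) : s a b := by
  obtain ⟨c', γ', hγ', a', b', hab, h1, h2⟩ := h
  have hc : c' = c := by rw [← (tr_ends h1).2, ← (tr_ends ha).2]
  subst hc
  exact hs (γ'.trans γ.symm) (av_trans hγ' (av_symm hγ)) a' a b' b hab
    (tr_trans h1 (tr_symm ha)) (tr_trans h2 (tr_symm hb))

lemma back (hA : Adm f P) (ht : t ∉ P) {x : ℂ} (hx : it f n x ∉ P) :
    ∃ γ : Path t (it f n x), Av P γ ∧ ∀ y, it f n y = it f n x → ∃ a, Tr f n γ a y := by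
  obtain ⟨γ, hγ⟩ := exists_av_path hA.fin ht hx
  refine ⟨γ, hγ, fun y hy => ?_⟩
  obtain ⟨a, ha⟩ := tr_exists hA n γ.symm (av_symm hγ) y hy
  exact ⟨a, tr_symm_iff.1 ha⟩

lemma Rel.refl (hA : Adm f P) (ht : t ∉ P) {x : ℂ} (hx : it f n x ∉ P) :
    Rel f P t n s x x := by
  obtain ⟨γ, hγ, h⟩ := back hA ht hx
  obtain ⟨a, ha⟩ := h x rfl
  exact ⟨_, γ, hγ, a, a, s.refl a, ha, ha⟩

lemma Rel.symm {x y : ℂ} (h : Rel f P t n s x y) : Rel f P t n s y x := by
  obtain ⟨c, γ, hγ, a, b, hab, h1, h2⟩ := h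
  exact ⟨c, γ, hγ, b, a, s.symm hab, h2, h1⟩

lemma Rel.trans (hA : Adm f P) (ht : t ∉ P) (hs : Inv f P t n s) {x y z : ℂ}
    (h : Rel f P t n s x y) (h' : Rel f P t n s y z) : Rel f P t n s x z := by
  obtain ⟨γ, hγ, hb⟩ := back hA ht h.not_mem
  obtain ⟨a, ha⟩ := hb x rfl
  obtain ⟨b, hb'⟩ := hb y h.eq.symm
  obtain ⟨c, hc⟩ := hb z (by rw [h.eq, h'.eq])
  exact ⟨_, γ, hγ, a, c, s.trans (h.key hs γ hγ ha hb') (h'.key hs γ hγ hb' hc), ha, hc⟩

lemma Rel.tr {x y : ℂ} (h : Rel f P t n s x y) {c c' : ℂ}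
    (δ : Path c c') (hδ : Av P δ) {x' y' : ℂ} (hx : Tr f n δ x x') (hy : Tr f n δ y y') :
    Rel f P t n s x' y' := by
  obtain ⟨e, γ, hγ, a, b, hab, h1, h2⟩ := h
  have hc : e = c := by rw [← (tr_ends h1).2, ← (tr_ends hx).1]
  subst hc
  exact ⟨c', γ.trans δ, av_trans hγ hδ, a, b, hab, tr_trans h1 hx, tr_trans h2 hy⟩

lemma rel_base (ht : t ∉ P) (hs : Inv f P t n s) {x y : ℂ} (hx : it f n x = t)
    (hy : it f n y = t) : Rel f P t n s x y ↔ s x y := by
  have hav : Av P (Path.refl t) := fun _ => ht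
  constructor
  · intro h
    exact h.key hs (Path.refl t) hav (tr_refl hx) (tr_refl hy)
  · intro h
    exact ⟨t, Path.refl t, hav, x, y, h, tr_refl hx, tr_refl hy⟩

open Classical in
/-- The class of `x` as a finite set. -/
noncomputable def B (f : ℂ[X]) (P : Set ℂ) (t : ℂ) (n : ℕ) (s : Setoid ℂ) (x : ℂ) : Finset ℂ :=
  (fibre (itp f n) (it f n x)).filter (Rel f P t n s x)

lemma one_le_deg (hA : Adm f P) : 1 ≤ (itp f n).natDegree := by
  rw [itp_natDegree]
  exact Nat.one_le_pow _ _ (by have := hA.deg; omega)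

lemma mem_B (hA : Adm f P) {x y : ℂ} : y ∈ B f P t n s x ↔ Rel f P t n s x y := by
  classical
  unfold B
  rw [Finset.mem_filter]
  constructor
  · exact fun h => h.2
  · intro h
    refine ⟨?_, h⟩
    rw [LD.mem_fibre (one_le_deg hA), itp_eval]
    exact h.eq.symm

lemma B_eq (hA : Adm f P) (ht : t ∉ P) (hs : Inv f P t n s) {x y : ℂ}
    (h : Rel f P t n s x y) : B f P t n s x = B f P t n s y := by
  ext z
  rw [mem_B hA, mem_B hA]
  exact ⟨fun h' => h.symm.trans hA ht hs h', fun h' => h.trans hA ht hs h'⟩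

lemma self_mem_B (hA : Adm f P) (ht : t ∉ P) {x : ℂ} (hx : it f n x ∉ P) :
    x ∈ B f P t n s x := (mem_B hA).2 (Rel.refl hA ht hx)

lemma card_le_of_tr (hA : Adm f P) {x x' c c' : ℂ} (δ : Path c c') (hδ : Av P δ)
    (h : Tr f n δ x x') : (B f P t n s x).card ≤ (B f P t n s x').card := by
  classical
  have hex : ∀ y ∈ B f P t n s x, ∃ w, Tr f n δ y w := by
    intro y hy
    rw [mem_B hA] at hy
    exact tr_exists hA n δ hδ y (by rw [← hy.eq]; exact (tr_ends h).1)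
  choose! φ hφ using hex
  refine Finset.card_le_card_of_injOn φ (fun y hy => ?_) (fun y hy z hz hyz => ?_)
  · have h1 := hφ y hy
    have hy' := (mem_B hA).1 hy
    exact (mem_B hA).2 (hy'.tr δ hδ h h1)
  · have h1 := hφ y hy
    have h2 := hφ z hz
    rw [hyz] at h1
    exact tr_unique hA (av_symm hδ) (tr_symm h1) (tr_symm h2)

/-- All classes have the same number of elements. -/
lemma card_eq (hA : Adm f P) {x x' : ℂ} (hx : it f n x ∉ P) (hx' : it f n x' ∉ P) :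
    (B f P t n s x).card = (B f P t n s x').card := by
  have hfin : {z | it f n z ∈ P}.Finite := by
    have : {z | it f n z ∈ P} = ⋃ p ∈ P, {z | (itp f n).eval z = p} := by
      ext z
      simp [itp_eval]
    rw [this]
    refine hA.fin.biUnion fun p _ => ?_
    have h1 : {z | (itp f n).eval z = p} = (fibre (itp f n) p : Set ℂ) := by
      ext z
      simp only [Set.mem_ofPred_eq, Finset.mem_coe]
      rw [LD.mem_fibre (one_le_deg hA)]
    rw [h1]
    exact Finset.finite_toSet _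
  obtain ⟨Δ, hΔ⟩ := exists_av_path hfin (a := x) (b := x') hx hx'
  let γ : Path (it f n x) (it f n x') := Δ.map (continuous_it f n)
  have hγ : Av P γ := fun r => hΔ r
  have h1 : Tr f n γ x x' := ⟨Δ, fun r => rfl⟩
  exact le_antisymm (card_le_of_tr hA γ hγ h1)
    (card_le_of_tr hA γ.symm (av_symm hγ) (tr_symm h1))

/-! ### Local inverses -/

lemma exists_local_inverse (hA : Adm f P) {y₀ : ℂ} (hy : it f n y₀ ∉ P) :
    ∃ (ε : ℝ) (g : ℂ → ℂ), 0 < ε ∧ g (it f n y₀) = y₀ ∧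
      (∀ w ∈ Metric.ball (it f n y₀) ε, w ∉ P ∧ it f n (g w) = w ∧ DifferentiableAt ℂ g w) ∧
      ∀ᶠ y in 𝓝 y₀, g (it f n y) = y := by
  have hfun : it f n = fun z => (itp f n).eval z := funext fun z => (itp_eval f n z).symm
  have hder : ∀ y, HasStrictDerivAt (it f n) ((itp f n).derivative.eval y) y := by
    intro y
    rw [hfun]
    exact (itp f n).hasStrictDerivAt y
  have hne : ∀ y, it f n y ∉ P → (itp f n).derivative.eval y ≠ 0 :=
    fun y hy h => hy (hA.it_crit n h)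
  let e := (hder y₀).hasStrictFDerivAt_equiv (hne y₀ hy) |>.toOpenPartialHomeomorph (it f n)
  have he : (e : ℂ → ℂ) = it f n := rfl
  have hsrc : y₀ ∈ e.source :=
    HasStrictFDerivAt.mem_toOpenPartialHomeomorph_source _
  have htgt : it f n y₀ ∈ e.target := e.map_source hsrc
  have hopen : IsOpen (e.target ∩ Pᶜ) := e.open_target.inter hA.fin.isClosed.isOpen_compl
  obtain ⟨ε, hε, hball⟩ := Metric.isOpen_iff.1 hopen _ ⟨htgt, hy⟩
  refine ⟨ε, e.symm, hε, e.left_inv hsrc, fun w hw => ?_, ?_⟩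
  · have h1 := hball hw
    have h2 : it f n (e.symm w) = w := e.right_inv h1.1
    refine ⟨h1.2, h2, ?_⟩
    have h3 : (itp f n).derivative.eval (e.symm w) ≠ 0 := hne _ (by rw [h2]; exact h1.2)
    exact (e.hasDerivAt_symm h1.1 h3 (hder _).hasDerivAt).differentiableAt
  · filter_upwards [e.open_source.mem_nhds hsrc] with y hy
    exact e.left_inv hy

/-- Local structure of the fibres. -/
lemma local_structure (hA : Adm f P) {x₀ : ℂ} (hx : it f n x₀ ∉ P) :
    ∃ (g : ℂ → ℂ → ℂ), (∀ y ∈ fibre (itp f n) (it f n x₀), g y (it f n x₀) = y ∧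
        DifferentiableAt ℂ (g y) (it f n x₀)) ∧
      ∀ᶠ x in 𝓝 x₀, g x₀ (it f n x) = x ∧ it f n x ∉ P ∧
        ∃ τ : Path (it f n x₀) (it f n x), Av P τ ∧
          ∀ y ∈ fibre (itp f n) (it f n x₀), Tr f n τ y (g y (it f n x)) := by
  classical
  have hex : ∀ y ∈ fibre (itp f n) (it f n x₀), ∃ (ε : ℝ) (g : ℂ → ℂ), 0 < ε ∧
      g (it f n x₀) = y ∧
      (∀ w ∈ Metric.ball (it f n x₀) ε, w ∉ P ∧ it f n (g w) = w ∧ DifferentiableAt ℂ g w) ∧
      ∀ᶠ y' in 𝓝 y, g (it f n y') = y' := by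
    intro y hy
    rw [LD.mem_fibre (one_le_deg hA), itp_eval] at hy
    have := exists_local_inverse (n := n) hA (y₀ := y) (by rw [hy]; exact hx)
    rwa [hy] at this
  choose! ε g hε hg hb hl using hex
  have hx₀ : x₀ ∈ fibre (itp f n) (it f n x₀) := by
    rw [LD.mem_fibre (one_le_deg hA), itp_eval]
  refine ⟨g, fun y hy => ⟨hg y hy, (hb y hy _ (Metric.mem_ball_self (hε y hy))).2.2⟩, ?_⟩
  obtain ⟨δ, hδ, hδε⟩ : ∃ δ > 0, ∀ y ∈ fibre (itp f n) (it f n x₀), δ ≤ ε y := by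
    have hne : (fibre (itp f n) (it f n x₀)).Nonempty := ⟨x₀, hx₀⟩
    refine ⟨(fibre (itp f n) (it f n x₀)).inf' hne ε, ?_, fun y hy =>
      Finset.inf'_le _ hy⟩
    rw [gt_iff_lt, Finset.lt_inf'_iff hne]
    exact hε
  have hball : ∀ᶠ x in 𝓝 x₀, it f n x ∈ Metric.ball (it f n x₀) δ :=
    (continuous_it f n).continuousAt.eventually (Metric.ball_mem_nhds _ hδ)
  filter_upwards [hl x₀ hx₀, hball] with x h1 h2
  have hsub : ∀ y ∈ fibre (itp f n) (it f n x₀), Metric.ball (it f n x₀) δ ⊆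
      Metric.ball (it f n x₀) (ε y) := fun y hy => Metric.ball_subset_ball (hδε y hy)
  refine ⟨h1, (hb x₀ hx₀ _ (hsub x₀ hx₀ h2)).1, ?_⟩
  have hτ : ∀ r : I, AffineMap.lineMap (it f n x₀) (it f n x) (r : ℝ) ∈
      Metric.ball (it f n x₀) δ := by
    intro r
    apply (convex_ball (it f n x₀) δ).segment_subset (Metric.mem_ball_self hδ) h2
    rw [segment_eq_image_lineMap]
    exact ⟨r, r.2, rfl⟩
  let τ : Path (it f n x₀) (it f n x) :=
    { toFun := fun r => AffineMap.lineMap (it f n x₀) (it f n x) (r : ℝ)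
      continuous_toFun := by
        simp only [AffineMap.lineMap_apply_module]
        fun_prop
      source' := by simp
      target' := by simp }
  have hτa : ∀ r, τ r = AffineMap.lineMap (it f n x₀) (it f n x) (r : ℝ) := fun r => rfl
  refine ⟨τ, fun r => ?_, fun y hy => ?_⟩
  · rw [hτa]
    exact (hb x₀ hx₀ _ (hsub x₀ hx₀ (hτ r))).1
  · have hcont : Continuous (fun r => g y (τ r)) := by
      rw [continuous_iff_continuousAt]
      intro r
      have h3 := (hb y hy _ (hsub y hy (hτ r))).2.2.continuousAt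
      exact ContinuousAt.comp (f := fun r => τ r) (g := g y) (x := r)
        (by rw [hτa]; exact h3) τ.continuous.continuousAt
    have h0 : g y (τ 0) = y := by rw [τ.source]; exact hg y hy
    have h1' : g y (τ 1) = g y (it f n x) := by rw [τ.target]
    exact ⟨⟨⟨fun r => g y (τ r), hcont⟩, h0, h1'⟩,
      fun r => (hb y hy _ (hsub y hy (hτ r))).2.1⟩

end PCF.P1
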