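import Pool.Agent.Work.MP_80ff4e_al_helper3.Rel

/-!
# Block P1: an invariant equivalence relation on a fibre comes from a right factor
-/

set_option autoImplicit false

open Polynomial unitInterval Filter Topology

namespace PCF.P1

open PCF

variable {f : ℂ[X]} {P : Set ℂ} {t : ℂ} {n : ℕ} {s : Setoid ℂ}

/-- The monic polynomial with simple roots `S`. -/
noncomputable def mpol (S : Finset ℂ) : ℂ[X] := ∏ y ∈ S, (X - C y)

lemma mpol_monic (S : Finset ℂ) : (mpol S).Monic :=
  monic_prod_of_monic _ _ fun y _ => monic_X_sub_C y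

lemma mpol_natDegree (S : Finset ℂ) : (mpol S).natDegree = S.card := by
  unfold mpol
  rw [natDegree_prod_of_monic _ _ fun y _ => monic_X_sub_C y]
  simp

lemma mpol_roots (S : Finset ℂ) : (mpol S).roots = S.val := by
  unfold mpol
  exact roots_prod_X_sub_C S

lemma mpol_eval (S : Finset ℂ) (x : ℂ) : (mpol S).eval x = 0 ↔ x ∈ S := by
  unfold mpol
  rw [eval_prod, Finset.prod_eq_zero_iff]
  simp only [eval_sub, eval_X, eval_C, sub_eq_zero]
  constructor
  · rintro ⟨y, hy, rfl⟩; exact hy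
  · intro h; exact ⟨x, h, rfl⟩

lemma mpol_coeff_le (S : Finset ℂ) (R : ℝ) (hR : ∀ y ∈ S, ‖y‖ ≤ R) (k : ℕ) :
    ‖(mpol S).coeff k‖ ≤ R ^ (S.card - k) * S.card.choose k := by
  have h1 := coeff_le_of_roots_le (p := mpol S) (f := RingHom.id ℂ) (B := R) k (mpol_monic S)
    (IsAlgClosed.splits _) (by
      intro z hz
      rw [Polynomial.map_id, mpol_roots] at hz
      exact hR z hz)
  rwa [Polynomial.map_id, mpol_natDegree] at h1

lemma coeff_prod_differentiableAt {ι : Type*} (S : Finset ι) (h : ι → ℂ → ℂ) (x₀ : ℂ)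
    (hd : ∀ i ∈ S, DifferentiableAt ℂ (h i) x₀) (k : ℕ) :
    DifferentiableAt ℂ (fun x => (∏ i ∈ S, (X - C (h i x))).coeff k) x₀ := by
  classical
  induction S using Finset.induction_on generalizing k with
  | empty => simp
  | insert a S ha ih =>
    have h1 : ∀ i ∈ S, DifferentiableAt ℂ (h i) x₀ := fun i hi => hd i (by simp [hi])
    have h2 := hd a (by simp)
    simp only [Finset.prod_insert ha, sub_mul]
    cases k with
    | zero =>
      simp only [coeff_sub, coeff_C_mul, coeff_X_mul_zero, zero_sub]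
      exact (h2.mul (ih h1 0)).neg
    | succ k =>
      simp only [coeff_sub, coeff_C_mul, coeff_X_mul]
      exact (ih h1 k).sub (h2.mul (ih h1 (k + 1)))

lemma coeff_B_differentiableAt (hA : Adm f P) {x₀ : ℂ} (hx : it f n x₀ ∉ P) (k : ℕ) :
    DifferentiableAt ℂ (fun x => (mpol (B f P t n s x)).coeff k) x₀ := by
  classical
  obtain ⟨g, hg, hl⟩ := local_structure hA hx
  have hdf : Differentiable ℂ (it f n) := by
    have hfun : it f n = fun z => (itp f n).eval z := funext fun z => (itp_eval f n z).symm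
    rw [hfun]
    exact (itp f n).differentiable
  have hBsub : ∀ y ∈ B f P t n s x₀, y ∈ fibre (itp f n) (it f n x₀) := by
    intro y hy
    rw [LD.mem_fibre (one_le_deg hA), itp_eval]
    exact ((mem_B hA).1 hy).eq.symm
  have hmem0 : x₀ ∈ fibre (itp f n) (it f n x₀) := by
    rw [LD.mem_fibre (one_le_deg hA), itp_eval]
  have hdiff : DifferentiableAt ℂ
      (fun x => (∏ y ∈ B f P t n s x₀, (X - C (g y (it f n x)))).coeff k) x₀ := by
    apply coeff_prod_differentiableAt _ (fun y x => g y (it f n x))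
    intro y hy
    exact DifferentiableAt.comp x₀ (hg y (hBsub y hy)).2 (hdf x₀)
  refine hdiff.congr_of_eventuallyEq ?_
  filter_upwards [hl] with x hx'
  obtain ⟨h1, h2, τ, hτ, hτ'⟩ := hx'
  congr 1
  have h3 : Tr f n τ x₀ x := by
    have := hτ' x₀ hmem0
    rwa [h1] at this
  have himg : B f P t n s x = (B f P t n s x₀).image (fun y => g y (it f n x)) := by
    ext y
    rw [Finset.mem_image, mem_B hA]
    constructor
    · intro hy
      obtain ⟨w, hw⟩ := tr_exists hA n τ.symm (av_symm hτ) y hy.eq.symm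
      have hr : Rel f P t n s x₀ w := hy.tr τ.symm (av_symm hτ) (tr_symm h3) hw
      refine ⟨w, (mem_B hA).2 hr, ?_⟩
      have hwf := hBsub w ((mem_B hA).2 hr)
      exact tr_unique hA hτ (hτ' w hwf) (tr_symm_iff.1 hw)
    · rintro ⟨w, hw, rfl⟩
      exact ((mem_B hA).1 hw).tr τ hτ h3 (hτ' w (hBsub w hw))
  unfold mpol
  rw [himg, Finset.prod_image]
  intro y hy z hz hyz
  have e1 := hτ' y (hBsub y hy)
  have e2 := hτ' z (hBsub z hz)
  simp only at hyz
  rw [hyz] at e1
  exact tr_unique hA (av_symm hτ) (tr_symm e1) (tr_symm e2)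

lemma finite_preimage (hA : Adm f P) : {z | it f n z ∈ P}.Finite := by
  have : {z | it f n z ∈ P} = ⋃ p ∈ P, {z | (itp f n).eval z = p} := by
    ext z
    simp [itp_eval]
  rw [this]
  refine hA.fin.biUnion fun p _ => ?_
  have h1 : {z | (itp f n).eval z = p} = (fibre (itp f n) p : Set ℂ) := by
    ext z
    simp only [Set.mem_ofPred_eq, Finset.mem_coe]
    rw [LD.mem_fibre (one_le_deg hA)]
  rw [h1]
  exact Finset.finite_toSet _

/-- The strong form of P1. -/
theorem P1core (hPA2 : Stmt_PA2) (hA : Adm f P) (ht : t ∉ P) (hs : Inv f P t n s) :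
    ∃ E A : ℂ[X], 1 ≤ E.natDegree ∧ itp f n = A.comp E ∧
      (∀ x, it f n x ∉ P → ∀ y, E.eval y = E.eval x ↔ Rel f P t n s x y) ∧
      (∀ x, it f n x ∉ P → fibre E (E.eval x) = B f P t n s x ∧
        (B f P t n s x).card = E.natDegree) := by
  classical
  have hfin := finite_preimage (n := n) hA
  set Z : Finset ℂ := hfin.toFinset with hZ
  have hmemZ : ∀ x, x ∉ Z ↔ it f n x ∉ P := by
    intro x
    simp [hZ]
  obtain ⟨x₁, hx₁⟩ : ∃ x₁, x₁ ∉ Z := Infinite.exists_notMem_finset Z
  set b := (B f P t n s x₁).card with hb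
  have hbx : ∀ x, x ∉ Z → (B f P t n s x).card = b := fun x hx =>
    card_eq hA ((hmemZ x).1 hx) ((hmemZ x₁).1 hx₁)
  have hbpos : 1 ≤ b := by
    rw [hb, Nat.one_le_iff_ne_zero, Ne, Finset.card_eq_zero]
    exact Finset.ne_empty_of_mem (self_mem_B hA ht ((hmemZ x₁).1 hx₁))
  obtain ⟨M, hM1, hM⟩ := growth_fibre (itp f n) (one_le_deg hA)
  -- the coefficients are polynomials
  have hco : ∀ k, ∃ p : ℂ[X], p.natDegree ≤ b - k ∧
      ∀ x ∉ Z, (mpol (B f P t n s x)).coeff k = p.eval x := by
    intro k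
    refine poly_of_growth (b - k) (M ^ (b - k) * b.choose k) Z _
      (fun x hx => coeff_B_differentiableAt hA ((hmemZ x).1 hx) k) (fun x hx => ?_)
    have h1 := mpol_coeff_le (B f P t n s x) (M * (1 + ‖x‖)) (by
      intro y hy
      apply hM
      rw [itp_eval, itp_eval]
      exact ((mem_B hA).1 hy).eq.symm) k
    rw [hbx x hx, mul_pow] at h1
    calc _ ≤ _ := h1
      _ = _ := by ring
  choose q hq1 hq2 using hco
  -- the coefficients of positive index are constant
  have hconst : ∀ k, 1 ≤ k → ∀ x ∉ Z, q k = C ((q k).eval x) := by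
    intro k hk x hx
    rw [← sub_eq_zero]
    by_contra hne
    have hsub : (B f P t n s x) ⊆ (q k - C ((q k).eval x)).roots.toFinset := by
      intro y hy
      rw [Multiset.mem_toFinset, mem_roots hne, IsRoot.def, eval_sub, eval_C, sub_eq_zero]
      have hr := (mem_B hA).1 hy
      have hyZ : y ∉ Z := by
        rw [hmemZ, ← hr.eq, ← hmemZ]
        exact hx
      rw [← hq2 k y hyZ, ← hq2 k x hx, B_eq hA ht hs hr]
    have h1 := Finset.card_le_card hsub
    rw [hbx x hx] at h1
    have h2 := (Multiset.toFinset_card_le _).trans (card_roots' (q k - C ((q k).eval x)))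
    rw [natDegree_sub_C] at h2
    have := hq1 k
    omega
  -- the polynomial E
  set E : ℂ[X] := mpol (B f P t n s x₁) with hE
  have hEdeg : E.natDegree = b := by rw [hE, mpol_natDegree]
  have hdiffE : ∀ x ∉ Z, ∃ c : ℂ, mpol (B f P t n s x) = E + C c := by
    intro x hx
    refine ⟨(mpol (B f P t n s x)).coeff 0 - E.coeff 0, ?_⟩
    ext k
    rcases Nat.eq_zero_or_pos k with rfl | hk
    · simp
    · rw [coeff_add, coeff_C_of_ne_zero hk.ne', add_zero, hE, hq2 k x hx, hq2 k x₁ hx₁,
        hconst k hk x hx, eval_C, eval_C]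
  have hfactor : ∀ x ∉ Z, mpol (B f P t n s x) = E - C (E.eval x) := by
    intro x hx
    obtain ⟨c, hc⟩ := hdiffE x hx
    have h0 : (mpol (B f P t n s x)).eval x = 0 :=
      (mpol_eval _ _).2 (self_mem_B hA ht ((hmemZ x).1 hx))
    rw [hc, eval_add, eval_C] at h0
    rw [hc, sub_eq_add_neg, ← C_neg]
    congr 2
    linear_combination h0
  have hEiff : ∀ x, it f n x ∉ P → ∀ y, E.eval y = E.eval x ↔ Rel f P t n s x y := by
    intro x hx y
    rw [← mem_B hA, ← mpol_eval, hfactor x ((hmemZ x).2 hx), eval_sub, eval_C, sub_eq_zero]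
  have hfib : ∀ x, it f n x ∉ P → fibre E (E.eval x) = B f P t n s x := by
    intro x hx
    ext y
    rw [LD.mem_fibre (by omega), mem_B hA, hEiff x hx]
  have hinf : {y : ℂ | (fibre E y).card = E.natDegree ∧ ∀ u v, E.eval u = y → E.eval v = y →
      (itp f n).eval u = (itp f n).eval v}.Infinite := by
    intro hfinS
    have hU : ((Z : Set ℂ)ᶜ).Infinite := Z.finite_toSet.infinite_compl
    apply hU
    refine (Set.Finite.preimage' (f := fun x => E.eval x) hfinS ?_).subset ?_
    · intro y _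
      have h1 : (fun x => E.eval x) ⁻¹' {y} = (fibre E y : Set ℂ) := by
        ext z
        simp only [Set.mem_preimage, Set.mem_singleton_iff, Finset.mem_coe]
        rw [LD.mem_fibre (by omega)]
      rw [h1]
      exact Finset.finite_toSet _
    · intro x hx
      have hxZ : x ∉ Z := hx
      have hxP := (hmemZ x).1 hxZ
      refine ⟨?_, fun u v hu hv => ?_⟩
      · rw [hfib x hxP, hbx x hxZ, hEdeg]
      · rw [hEiff x hxP] at hu hv
        rw [itp_eval, itp_eval, ← hu.eq, ← hv.eq]
  obtain ⟨A, hAE⟩ := hPA2 E (itp f n) (by omega) hinf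
  exact ⟨E, A, by omega, hAE, hEiff, fun x hx => ⟨hfib x hx, by
    rw [hbx x ((hmemZ x).2 hx), hEdeg]⟩⟩

/-- P1. -/
theorem _root_.PCF.stmt_P1 (hPA2 : Stmt_PA2) : Stmt_P1 := by
  intro f P hA t n ht s _ hs
  obtain ⟨E, A, _, h1, h2, _⟩ := P1core (n := n) hPA2 hA ht hs
  refine ⟨E, A, h1, fun x y hx hy => ?_⟩
  rw [eq_comm, h2 x (by rw [hx]; exact ht) y, rel_base ht hs hx hy]

end PCF.P1
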